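import Pool.Agent.Helper28.OHS.Goals

/-!
# Packet OHS-CEL: names of cells
-/

namespace Pool.Agent.Helper94.OHS

open Pool.Agent.Helper65.LinSpace Pool.Agent.Helper78.Mpc Pool.Agent.Helper28.Ram Finset
open Pool.Agent.Helper28.OHS
open Pool.Agent.Helper65.OH (InBox co)

theorem binN_eq (a : ℕ) : binN a = num a.bits := by
  rw [← bitsN_eq]
  unfold binN bitsN
  by_cases h : a = 0
  · subst h
    rfl
  · rw [ifz_ne h, ifz_ne h]

theorem intN_eq {κ : ℕ} {z : ℤ} (h0 : 0 ≤ z + 2 ^ (κ - 1)) :
    intN κ (z + 2 ^ (κ - 1)).toNat = num (intW z) := by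
  have h1 : (((z + 2 ^ (κ - 1)).toNat : ℕ) : ℤ) = z + 2 ^ (κ - 1) := Int.toNat_of_nonneg h0
  generalize hu : (z + 2 ^ (κ - 1)).toNat = u at h1
  have h2 : ((2 ^ (κ - 1) : ℕ) : ℤ) = 2 ^ (κ - 1) := by push_cast; rfl
  rw [← h2] at h1
  generalize hC : 2 ^ (κ - 1) = c at h1
  unfold intN intW
  rw [hC, binN_eq]
  show _ = (decide (0 ≤ z)).toNat + 2 * num z.natAbs.bits
  have h3 : (u - c) + (c - u) = z.natAbs := by omega
  have h4 : le01 c u = (decide (0 ≤ z)).toNat := by
    unfold le01
    by_cases h : c ≤ u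
    · rw [if_pos h, decide_eq_true (by omega)]
      rfl
    · rw [if_neg h, decide_eq_false (by omega)]
      rfl
  rw [h3, h4]

theorem cellN_eq (κ : ℕ) (u : ℕ → ℕ) (f : ℕ → List Bool) (D : ℕ)
    (h : ∀ k < D, intN κ (u k) = num (f k)) :
    cellN κ u D = num (List.ofFn fun k : Fin D => sd (f k)).flatten := by
  induction D with
  | zero => rfl
  | succ D ih =>
    have e : cellN κ u (D + 1) = catN (cellN κ u D) (sdN (intN κ (u D))) := rfl
    rw [e, ih fun k hk => h k (by omega), h D (Nat.lt_succ_self D), sdN_num, catN_num,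
      List.ofFn_succ', List.concat_eq_append, List.flatten_append]
    simp

theorem cel : CEL_stmt where
  name := by
    intro D κ p _ hp
    rw [cellN_eq κ (co κ p) (fun k => if h : k < D then intW (p ⟨k, h⟩) else []) D ?_]
    · unfold cellW
      have e : (fun k : Fin D => sd (if h : (k : ℕ) < D then intW (p ⟨k, h⟩) else [])) =
          fun k => sd (intW (p k)) := by
        funext k
        rw [dif_pos k.2]
      rw [e]
    · intro k hk
      unfold co
      rw [dif_pos hk, dif_pos hk]
      exact intN_eq (hp ⟨k, hk⟩).1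
  congr := by
    intro κ D u v h
    induction D with
    | zero => rfl
    | succ D ih =>
      have e : ∀ u : ℕ → ℕ, cellN κ u (D + 1) = catN (cellN κ u D) (sdN (intN κ (u D))) :=
        fun _ => rfl
      rw [e, e, ih fun k hk => h k (by omega), h D (Nat.lt_succ_self D)]

end Pool.Agent.Helper94.OHS
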